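import Pool.Agent.R700.NonPI

set_option autoImplicit false
set_option synthInstance.maxHeartbeats 400000

namespace Pool.Agent.Results.MP_0be8ec_al.NoIdentity

open Pool.Agent.R700 Pool.Agent.R700.Zas Pool.Agent.R700.NonPI

theorem transfer {S R' E' : Type} [Ring S] [Ring R'] [Ring E'] (e : R' ≃+* S) (inc : R' →+* E')
    {n : ℕ} (r : Fin n → R') (f : FreeAlgebra ℤ (Fin n))
    (hu : ∀ ψ : FreeAlgebra ℤ (Fin n) →+* E', (∀ j, ψ (FreeAlgebra.ι ℤ j) = inc (r j)) → ψ f ≠ 0) :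
    ∃ ρ : Fin n → S, FreeAlgebra.lift ℤ ρ f ≠ 0 := by
  let ρ : Fin n → S := fun j => e (r j)
  refine ⟨ρ, fun h0 => ?_⟩
  let ψ : FreeAlgebra ℤ (Fin n) →+* E' :=
    (inc.comp e.symm.toRingHom).comp (FreeAlgebra.lift ℤ ρ).toRingHom
  refine hu ψ (fun j => ?_) ?_
  · have h1 : FreeAlgebra.lift ℤ ρ (FreeAlgebra.ι ℤ j) = ρ j := FreeAlgebra.lift_ι_apply ρ j
    change inc (e.symm (FreeAlgebra.lift ℤ ρ (FreeAlgebra.ι ℤ j))) = _
    rw [h1]
    change inc (e.symm (e _)) = _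
    rw [e.symm_apply_apply]
  · change inc (e.symm (FreeAlgebra.lift ℤ ρ f)) = _
    rw [h0, map_zero, map_zero]

/-- the inclusion -/
noncomputable def inc : R →+* (V →ₗ[ℚ] V) :=
  { toFun := fun r => r.1.1
    map_one' := rfl
    map_mul' := fun a b => rfl
    map_zero' := rfl
    map_add' := fun a b => rfl }

/-- There is a torsion-free abelian group whose endomorphism ring is centrally essential, although no
nonzero polynomial in noncommuting variables with integer coefficients vanishes on it. -/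
theorem result : ∃ (A : Type) (_ : AddCommGroup A),
    (∀ (n : ℕ) (a : A), 0 < n → n • a = 0 → a = 0) ∧
    CentrallyEssential (AddMonoid.End A) ∧
    ∀ (n : ℕ) (f : FreeAlgebra ℤ (Fin n)), f ≠ 0 →
      ∃ ρ : Fin n → AddMonoid.End A, FreeAlgebra.lift ℤ ρ f ≠ 0 := by
  classical
  obtain ⟨h, hh, ⟨e⟩⟩ := exists_end R h1 h2 G rfl hGc hGs
  have htf : ∀ (n : ℕ) (a : Grp R h), 0 < n → n • a = 0 → a = 0 := by
    intro n a hn ha
    have h3 : n • (a : EE) = 0 := by
      rw [← AddSubgroup.coe_nsmul, ha]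
      rfl
    rw [← Nat.cast_smul_eq_nsmul ℚ n] at h3
    have hn0 : (n : ℚ) ≠ 0 := by exact_mod_cast hn.ne'
    apply Subtype.ext
    have h4 := congrArg (fun z : EE => (n : ℚ)⁻¹ • z) h3
    simp only [smul_smul, inv_mul_cancel₀ hn0, one_smul, smul_zero] at h4
    exact h4
  refine ⟨Grp R h, inferInstance, htf, NonPI.cE.of_equiv e, ?_⟩
  intro n f hf
  obtain ⟨u, hu⟩ := exists_ne f hf
  exact transfer e inc (fun j => ⟨rho u j, rho_mem u j⟩) f hu

end Pool.Agent.Results.MP_0be8ec_al.NoIdentity
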